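import Mathlib

/-!
# The zombie number of the toroidal grid is `O(n^{3/2})`
-/

namespace Pool.Agent.Results.MP_34e428_co.ZombieUpper

open SimpleGraph Finset

section Game

variable {V : Type} [Fintype V] [DecidableEq V]

open Classical in
/-- The vertices a zombie at `z` may step to when the survivor is at `v`:
the neighbours of `z` that are closer to `v` than `z` is. -/
noncomputable def closer (G : SimpleGraph V) (v z : V) : Finset V :=
  Finset.univ.filter (fun u => G.Adj z u ∧ G.dist u v < G.dist z v)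

/-- Probability that a zombie at `z` steps to `z'` when the survivor is at `v`
(uniform choice in `closer G v z`). -/
noncomputable def step (G : SimpleGraph V) (v z z' : V) : ℝ :=
  if z' ∈ closer G v z then (1 : ℝ) / (closer G v z).card else 0

/-- A (deterministic) strategy of the survivor against `k` zombies: the survivor's vertex as a
function of the list of all zombie positions seen so far (most recent first). -/
abbrev Strategy (V : Type) (k : ℕ) := List (Fin k → V) → V

open Classical in
/-- `survFrom G σ t h` : the probability that a survivor who follows `σ` survives `t` more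
rounds, given that the list of zombie positions so far is `h` (most recent first), the survivor
being at `σ h` and the zombies being about to move. In a round the zombies at `Z` move to
`Z'`, all independently; the survivor must not be hit, then goes to the vertex `σ (Z' :: h)`,
which must be her current vertex or a neighbour of it, and must not be occupied. -/
noncomputable def survFrom (G : SimpleGraph V) {k : ℕ} (σ : Strategy V k) :
    ℕ → List (Fin k → V) → ℝ
  | 0, _ => 1
  | _ + 1, [] => 1
  | t + 1, Z :: h =>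
      ∑ Z' : Fin k → V, (∏ i, step G (σ (Z :: h)) (Z i) (Z' i)) *
        (if (∀ i, Z' i ≠ σ (Z :: h)) ∧
            (σ (Z' :: Z :: h) = σ (Z :: h) ∨ G.Adj (σ (Z :: h)) (σ (Z' :: Z :: h))) ∧
            (∀ i, Z' i ≠ σ (Z' :: Z :: h))
          then survFrom G σ t (Z' :: Z :: h) else 0)

open Classical in
/-- The probability that a survivor who follows `σ` survives the first `T` rounds, when the
`k` zombies start at independent uniformly random vertices. -/
noncomputable def survProb (G : SimpleGraph V) {k : ℕ} (σ : Strategy V k) (T : ℕ) : ℝ :=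
  (1 / (Fintype.card V : ℝ) ^ k) *
    ∑ Z : Fin k → V, if ∀ i, Z i ≠ σ [Z] then survFrom G σ T [Z] else 0

/-- `s_k(G)`: the probability that the survivor wins (survives forever) under optimal play. -/
noncomputable def s (k : ℕ) (G : SimpleGraph V) : ℝ :=
  ⨆ σ : Strategy V k, ⨅ T : ℕ, survProb G σ T

/-- The zombie number `z(G) = min {k : s_k(G) ≤ 1/2}`. -/
noncomputable def zombieNumber (G : SimpleGraph V) : ℕ := sInf {k : ℕ | s k G ≤ 1 / 2}

/-! ### The union bound over trajectories -/

lemma step_nonneg (G : SimpleGraph V) (v z z' : V) : 0 ≤ step G v z z' := by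
  unfold step; split_ifs <;> positivity

open Classical in
lemma step_sum_le (G : SimpleGraph V) (v z : V) : ∑ z', step G v z z' ≤ 1 := by
  unfold step
  rw [← Finset.sum_filter]
  rw [Finset.sum_const]
  have : (Finset.univ.filter (fun a => a ∈ closer G v z)) = closer G v z := by
    ext; simp
  rw [this]
  rcases Nat.eq_zero_or_pos (closer G v z).card with h | h
  · simp [h]
  · rw [nsmul_eq_mul]; apply le_of_eq; field_simp

lemma survFrom_nonneg (G : SimpleGraph V) {k : ℕ} (σ : Strategy V k) (t : ℕ)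
    (h : List (Fin k → V)) : 0 ≤ survFrom G σ t h := by
  induction t generalizing h with
  | zero => simp [survFrom]
  | succ t ih =>
    cases h with
    | nil => simp [survFrom]
    | cons Z h =>
      simp only [survFrom]
      apply Finset.sum_nonneg
      intro Z' _
      apply mul_nonneg
      · exact Finset.prod_nonneg (fun i _ => step_nonneg _ _ _ _)
      · split_ifs
        · exact ih _
        · exact le_rfl

lemma survProb_nonneg (G : SimpleGraph V) {k : ℕ} (σ : Strategy V k) (T : ℕ) :
    0 ≤ survProb G σ T := by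
  unfold survProb
  apply mul_nonneg (by positivity)
  apply Finset.sum_nonneg
  intro Z _
  split_ifs
  · exact survFrom_nonneg _ _ _ _
  · exact le_rfl

open Classical in
/-- closed neighbourhood -/
noncomputable def nbd (G : SimpleGraph V) (v : V) : Finset V :=
  Finset.univ.filter (fun u => u = v ∨ G.Adj v u)

/-- sum of `f` over all legal trajectories of length `t` starting at `v`
(the list does not contain the start). -/
noncomputable def sumP (G : SimpleGraph V) : ℕ → V → (List V → ℝ) → ℝ
  | 0, _, f => f []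
  | t + 1, v, f => ∑ v' ∈ nbd G v, sumP G t v' (fun l => f (v' :: l))

/-- probability that one zombie, now at `z`, does not catch a survivor who is at `v` and who
will follow the trajectory `l`. -/
noncomputable def S (G : SimpleGraph V) : V → List V → V → ℝ
  | _, [], _ => 1
  | v, v' :: l, z => ∑ z', step G v z z' * (if z' = v ∨ z' = v' then 0 else S G v' l z')

lemma S_nonneg (G : SimpleGraph V) (v : V) (l : List V) (z : V) : 0 ≤ S G v l z := by
  induction l generalizing v z with
  | nil => simp [S]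
  | cons v' l ih =>
    simp only [S]
    apply Finset.sum_nonneg
    intro z' _
    apply mul_nonneg (step_nonneg _ _ _ _)
    split_ifs
    · exact le_rfl
    · exact ih _ _

lemma sumP_sum {ι : Type} (G : SimpleGraph V) (t : ℕ) (v : V) (A : Finset ι)
    (f : ι → List V → ℝ) :
    ∑ a ∈ A, sumP G t v (f a) = sumP G t v (fun l => ∑ a ∈ A, f a l) := by
  induction t generalizing v f with
  | zero => simp [sumP]
  | succ t ih =>
    simp only [sumP]
    rw [Finset.sum_comm]
    apply Finset.sum_congr rfl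
    intro v' _
    rw [ih]

lemma sumP_mul (G : SimpleGraph V) (t : ℕ) (v : V) (c : ℝ) (f : List V → ℝ) :
    c * sumP G t v f = sumP G t v (fun l => c * f l) := by
  induction t generalizing v f with
  | zero => simp [sumP]
  | succ t ih =>
    simp only [sumP]
    rw [Finset.mul_sum]
    apply Finset.sum_congr rfl
    intro v' _
    rw [ih]

lemma sumP_nonneg (G : SimpleGraph V) (t : ℕ) (v : V) (f : List V → ℝ) (hf : ∀ l, 0 ≤ f l) :
    0 ≤ sumP G t v f := by
  induction t generalizing v f with
  | zero => simpa [sumP] using hf []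
  | succ t ih =>
    simp only [sumP]
    exact Finset.sum_nonneg (fun v' _ => ih v' _ (fun l => hf _))

/-- legal trajectories -/
def Legal (G : SimpleGraph V) : V → List V → Prop
  | _, [] => True
  | v, v' :: l => v' ∈ nbd G v ∧ Legal G v' l

lemma sumP_le (G : SimpleGraph V) (D : ℕ) (hD : ∀ v, (nbd G v).card ≤ D) (t : ℕ) (v : V)
    (f : List V → ℝ) (B : ℝ) (hB : 0 ≤ B)
    (hf : ∀ l, l.length = t → Legal G v l → f l ≤ B) :
    sumP G t v f ≤ (D : ℝ) ^ t * B := by
  induction t generalizing v f with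
  | zero => simpa [sumP] using hf [] rfl trivial
  | succ t ih =>
    simp only [sumP]
    calc ∑ v' ∈ nbd G v, sumP G t v' (fun l => f (v' :: l))
        ≤ ∑ v' ∈ nbd G v, (D : ℝ) ^ t * B := by
          apply Finset.sum_le_sum
          intro v' hv'
          apply ih
          intro l hl hL
          exact hf _ (by simp [hl]) ⟨hv', hL⟩
      _ = (nbd G v).card * ((D : ℝ) ^ t * B) := by rw [Finset.sum_const, nsmul_eq_mul]
      _ ≤ D * ((D : ℝ) ^ t * B) := by
          apply mul_le_mul_of_nonneg_right _ (by positivity)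
          exact_mod_cast hD v
      _ = (D : ℝ) ^ (t + 1) * B := by ring

open Classical in
lemma survFrom_le (G : SimpleGraph V) {k : ℕ} (σ : Strategy V k) (t : ℕ) (Z : Fin k → V)
    (h : List (Fin k → V)) :
    survFrom G σ t (Z :: h) ≤
      sumP G t (σ (Z :: h)) (fun l => ∏ i, S G (σ (Z :: h)) l (Z i)) := by
  induction t generalizing Z h with
  | zero => simp [survFrom, sumP, S]
  | succ t ih =>
    simp only [survFrom, sumP]
    set v := σ (Z :: h) with hv
    have key : ∀ Z' : Fin k → V,
        (∏ i, step G v (Z i) (Z' i)) *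
        (if (∀ i, Z' i ≠ v) ∧
            (σ (Z' :: Z :: h) = v ∨ G.Adj v (σ (Z' :: Z :: h))) ∧
            (∀ i, Z' i ≠ σ (Z' :: Z :: h))
          then survFrom G σ t (Z' :: Z :: h) else 0) ≤
        ∑ v' ∈ nbd G v, (∏ i, step G v (Z i) (Z' i)) *
          ((∏ i, if Z' i = v ∨ Z' i = v' then (0 : ℝ) else 1) *
            sumP G t v' (fun l => ∏ i, S G v' l (Z' i))) := by
      intro Z'
      have hnn : ∀ v', 0 ≤ (∏ i, step G v (Z i) (Z' i)) *
          ((∏ i, if Z' i = v ∨ Z' i = v' then (0 : ℝ) else 1) *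
            sumP G t v' (fun l => ∏ i, S G v' l (Z' i))) := by
        intro v'
        apply mul_nonneg (Finset.prod_nonneg (fun i _ => step_nonneg _ _ _ _))
        apply mul_nonneg
        · apply Finset.prod_nonneg
          intro i _
          split_ifs <;> norm_num
        · apply sumP_nonneg
          intro l
          exact Finset.prod_nonneg (fun i _ => S_nonneg _ _ _ _)
      split_ifs with hc
      · obtain ⟨h1, h2, h3⟩ := hc
        have hmem : σ (Z' :: Z :: h) ∈ nbd G v := by
          simp only [nbd, Finset.mem_filter, Finset.mem_univ, true_and]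
          exact h2
        refine le_trans ?_ (Finset.single_le_sum (fun v' _ => hnn v') hmem)
        apply mul_le_mul_of_nonneg_left _
          (Finset.prod_nonneg (fun i _ => step_nonneg _ _ _ _))
        have : (∏ i, if Z' i = v ∨ Z' i = σ (Z' :: Z :: h) then (0 : ℝ) else 1) = 1 := by
          apply Finset.prod_eq_one
          intro i _
          rw [if_neg]
          rintro (h4 | h4)
          · exact h1 i h4
          · exact h3 i h4
        rw [this, one_mul]
        exact ih Z' (Z :: h)
      · rw [mul_zero]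
        exact Finset.sum_nonneg (fun v' _ => hnn v')
    calc _ ≤ ∑ Z' : Fin k → V, ∑ v' ∈ nbd G v, (∏ i, step G v (Z i) (Z' i)) *
          ((∏ i, if Z' i = v ∨ Z' i = v' then (0 : ℝ) else 1) *
            sumP G t v' (fun l => ∏ i, S G v' l (Z' i))) :=
          Finset.sum_le_sum (fun Z' _ => key Z')
      _ = ∑ v' ∈ nbd G v, sumP G t v' (fun l => ∏ i, S G v (v' :: l) (Z i)) := by
          rw [Finset.sum_comm]
          apply Finset.sum_congr rfl
          intro v' _
          have : ∀ Z' : Fin k → V, (∏ i, step G v (Z i) (Z' i)) *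
              ((∏ i, if Z' i = v ∨ Z' i = v' then (0 : ℝ) else 1) *
                sumP G t v' (fun l => ∏ i, S G v' l (Z' i))) =
              sumP G t v' (fun l => ∏ i, (step G v (Z i) (Z' i) *
                (if Z' i = v ∨ Z' i = v' then 0 else S G v' l (Z' i)))) := by
            intro Z'
            rw [sumP_mul, sumP_mul]
            congr 1
            funext l
            rw [← Finset.prod_mul_distrib, ← Finset.prod_mul_distrib]
            apply Finset.prod_congr rfl
            intro i _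
            split_ifs <;> ring
          simp_rw [this]
          rw [sumP_sum]
          congr 1
          funext l
          simp only [S]
          rw [Finset.prod_univ_sum, Fintype.piFinset_univ]

open Classical in
/-- union bound -/
lemma survProb_le (G : SimpleGraph V) {k : ℕ} (σ : Strategy V k) (T : ℕ) (D : ℕ)
    (hD : ∀ v, (nbd G v).card ≤ D) (M : ℝ) (hM : 0 ≤ M)
    (hS : ∀ v l, l.length = T → Legal G v l →
      ∑ z, (if z = v then 0 else S G v l z) ≤ M) :
    survProb G σ T ≤ (Fintype.card V) * (D : ℝ) ^ T * (M / Fintype.card V) ^ k := by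
  unfold survProb
  have h1 : ∀ Z : Fin k → V, (if ∀ i, Z i ≠ σ [Z] then survFrom G σ T [Z] else 0) ≤
      ∑ v, sumP G T v (fun l => ∏ i, (if Z i = v then 0 else S G v l (Z i))) := by
    intro Z
    have hnn : ∀ v, 0 ≤ sumP G T v (fun l => ∏ i, (if Z i = v then 0 else S G v l (Z i))) := by
      intro v
      apply sumP_nonneg
      intro l
      apply Finset.prod_nonneg
      intro i _
      split_ifs
      · exact le_rfl
      · exact S_nonneg _ _ _ _
    split_ifs with hc
    · refine le_trans (survFrom_le G σ T Z []) ?_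
      refine le_trans (le_of_eq ?_) (Finset.single_le_sum (fun v _ => hnn v)
        (Finset.mem_univ (σ [Z])))
      congr 1
      funext l
      apply Finset.prod_congr rfl
      intro i _
      rw [if_neg (hc i)]
    · exact Finset.sum_nonneg (fun v _ => hnn v)
  have h2 : ∑ Z : Fin k → V, (if ∀ i, Z i ≠ σ [Z] then survFrom G σ T [Z] else 0) ≤
      (Fintype.card V) * ((D : ℝ) ^ T * M ^ k) := by
    calc _ ≤ ∑ Z : Fin k → V, ∑ v,
          sumP G T v (fun l => ∏ i, (if Z i = v then 0 else S G v l (Z i))) :=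
          Finset.sum_le_sum (fun Z _ => h1 Z)
      _ = ∑ v, sumP G T v (fun l => (∑ z, if z = v then 0 else S G v l z) ^ k) := by
          rw [Finset.sum_comm]
          apply Finset.sum_congr rfl
          intro v _
          rw [sumP_sum]
          congr 1
          funext l
          have := Finset.prod_univ_sum (fun _ : Fin k => (Finset.univ : Finset V))
            (fun _ z => if z = v then 0 else S G v l z)
          rw [Fintype.piFinset_univ] at this
          rw [← this]
          simp
      _ ≤ ∑ v : V, (D : ℝ) ^ T * M ^ k := by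
          apply Finset.sum_le_sum
          intro v _
          apply sumP_le G D hD T v _ _ (by positivity)
          intro l hl hL
          apply pow_le_pow_left₀ _ (hS v l hl hL)
          apply Finset.sum_nonneg
          intro z _
          split_ifs
          · exact le_rfl
          · exact S_nonneg _ _ _ _
      _ = (Fintype.card V) * ((D : ℝ) ^ T * M ^ k) := by
          rw [Finset.sum_const, nsmul_eq_mul, Finset.card_univ]
  calc _ ≤ (1 / (Fintype.card V : ℝ) ^ k) * ((Fintype.card V) * ((D : ℝ) ^ T * M ^ k)) :=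
        mul_le_mul_of_nonneg_left h2 (by positivity)
    _ = _ := by rw [div_pow]; ring

/-! ### Duality: forward mass -/

/-- the mass distribution after one round -/
noncomputable def fwd (G : SimpleGraph V) (v v' : V) (μ : V → ℝ) : V → ℝ :=
  fun z' => if z' = v ∨ z' = v' then 0 else ∑ z, μ z * step G v z z'

/-- total surviving mass -/
noncomputable def mass (G : SimpleGraph V) : V → List V → (V → ℝ) → ℝ
  | _, [], μ => ∑ z, μ z
  | v, v' :: l, μ => mass G v' l (fwd G v v' μ)

lemma mass_eq (G : SimpleGraph V) (v : V) (l : List V) (μ : V → ℝ) :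
    ∑ z, μ z * S G v l z = mass G v l μ := by
  induction l generalizing v μ with
  | nil => simp [S, mass]
  | cons v' l ih =>
    simp only [S, mass]
    rw [← ih]
    simp only [fwd]
    simp_rw [Finset.mul_sum]
    rw [Finset.sum_comm]
    apply Finset.sum_congr rfl
    intro z' _
    split_ifs with h
    · simp
    · rw [Finset.sum_mul]
      apply Finset.sum_congr rfl
      intro z _
      ring

end Game


/-! ### One-dimensional analysis -/

/-- one lazy step of the one-dimensional zombies towards `0`, acting on mass distributions -/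
noncomputable def K (m : ℤ → ℝ) (x : ℤ) : ℝ :=
  if x = 0 then m 0 + (m 1 + m (-1)) / 2 else (m x + m (x + x.sign)) / 2

/-- accumulated mass at `0` -/
noncomputable def A : List ℤ → (ℤ → ℝ) → ℝ
  | [], _ => 0
  | s :: l, m => m 0 + A l (fun x => K m (x + s))

lemma K_mono {m m' : ℤ → ℝ} (h : ∀ x, m x ≤ m' x) (x : ℤ) : K m x ≤ K m' x := by
  unfold K
  split_ifs
  · linarith [h 0, h 1, h (-1)]
  · linarith [h x, h (x + x.sign)]

lemma A_mono (l : List ℤ) {m m' : ℤ → ℝ} (h : ∀ x, m x ≤ m' x) : A l m ≤ A l m' := by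
  induction l generalizing m m' with
  | nil => simp [A]
  | cons s l ih =>
    simp only [A]
    have := ih (m := fun x => K m (x + s)) (m' := fun x => K m' (x + s))
      (fun x => K_mono h _)
    linarith [h 0]

lemma A_add (l : List ℤ) (m m' : ℤ → ℝ) : A l (fun x => m x + m' x) = A l m + A l m' := by
  induction l generalizing m m' with
  | nil => simp [A]
  | cons s l ih =>
    simp only [A]
    have : (fun x => K (fun x => m x + m' x) (x + s)) =
        fun x => K m (x + s) + K m' (x + s) := by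
      funext x
      unfold K
      split_ifs <;> ring
    rw [this, ih]
    ring

lemma A_smul (l : List ℤ) (c : ℝ) (m : ℤ → ℝ) : A l (fun x => c * m x) = c * A l m := by
  induction l generalizing m with
  | nil => simp [A]
  | cons s l ih =>
    simp only [A]
    have : (fun x => K (fun x => c * m x) (x + s)) = fun x => c * K m (x + s) := by
      funext x
      unfold K
      split_ifs <;> ring
    rw [this, ih]
    ring

/-- unit mass -/
noncomputable def δ (a : ℤ) : ℤ → ℝ := fun x => if x = a then 1 else 0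

lemma K_one (x : ℤ) : K (fun _ => 1) x = 1 + δ 0 x := by
  unfold K δ
  split_ifs <;> norm_num

lemma K_δ_zero (x : ℤ) : K (δ 0) x = δ 0 x := by
  unfold K δ
  rcases lt_trichotomy x 0 with h | h | h
  · have h1 : x.sign = -1 := Int.sign_eq_neg_one_of_neg h
    rw [if_neg h.ne, h1, if_neg h.ne, if_neg (by omega)]; norm_num
  · subst h; norm_num
  · have h1 : x.sign = 1 := Int.sign_eq_one_of_pos h
    rw [if_neg h.ne', h1, if_neg h.ne', if_neg (by omega)]; norm_num

lemma K_δ_pos (a : ℤ) (ha : 0 < a) (x : ℤ) :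
    K (δ a) x = (1/2) * δ a x + (1/2) * δ (a - 1) x := by
  unfold K δ
  rcases lt_trichotomy x 0 with h | h | h
  · have h1 : x.sign = -1 := Int.sign_eq_neg_one_of_neg h
    rw [if_neg h.ne, h1, if_neg (by omega), if_neg (by omega), if_neg (by omega)]; norm_num
  · subst h
    rw [if_pos rfl, if_neg (by omega), if_neg (by omega : ¬ (-1 : ℤ) = a)]
    by_cases h2 : a = 1
    · rw [if_pos (by omega), if_pos (by omega)]; norm_num
    · rw [if_neg (by omega), if_neg (by omega)]; norm_num
  · have h1 : x.sign = 1 := Int.sign_eq_one_of_pos h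
    rw [if_neg h.ne', h1]
    by_cases h2 : x = a
    · rw [if_pos h2, if_neg (by omega), if_neg (by omega)]; norm_num
    · by_cases h3 : x = a - 1
      · rw [if_neg h2, if_pos (by omega), if_pos h3]; norm_num
      · rw [if_neg h2, if_neg (by omega), if_neg h3]; norm_num

lemma K_δ_neg (a : ℤ) (ha : a < 0) (x : ℤ) :
    K (δ a) x = (1/2) * δ a x + (1/2) * δ (a + 1) x := by
  unfold K δ
  rcases lt_trichotomy x 0 with h | h | h
  · have h1 : x.sign = -1 := Int.sign_eq_neg_one_of_neg h
    rw [if_neg h.ne, h1]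
    by_cases h2 : x = a
    · rw [if_pos h2, if_neg (by omega), if_neg (by omega)]; norm_num
    · by_cases h3 : x = a + 1
      · rw [if_neg h2, if_pos (by omega), if_pos h3]; norm_num
      · rw [if_neg h2, if_neg (by omega), if_neg h3]; norm_num
  · subst h
    rw [if_pos rfl, if_neg (by omega), if_neg (by omega : ¬ (1 : ℤ) = a)]
    by_cases h2 : a = -1
    · rw [if_pos (by omega), if_pos (by omega)]; norm_num
    · rw [if_neg (by omega), if_neg (by omega)]; norm_num
  · have h1 : x.sign = 1 := Int.sign_eq_one_of_pos h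
    rw [if_neg h.ne', h1, if_neg (by omega), if_neg (by omega), if_neg (by omega)]; norm_num

/-- `Φ h a = E (Bin(h,1/2) - a)^+` -/
noncomputable def Φ : ℕ → ℤ → ℝ
  | 0, a => max (-(a : ℝ)) 0
  | h + 1, a => (Φ h a + Φ h (a - 1)) / 2

lemma Φ_anti (h : ℕ) {a b : ℤ} (hab : a ≤ b) : Φ h b ≤ Φ h a := by
  induction h generalizing a b with
  | zero =>
    simp only [Φ]
    have : (a : ℝ) ≤ b := by exact_mod_cast hab
    apply max_le_max _ le_rfl
    linarith
  | succ h ih =>
    simp only [Φ]
    have h1 := ih hab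
    have h2 := ih (show a - 1 ≤ b - 1 by omega)
    linarith

lemma Φ_lip (h : ℕ) (a : ℤ) : Φ h (a - 1) ≤ Φ h a + 1 := by
  induction h generalizing a with
  | zero =>
    simp only [Φ]
    push_cast
    apply max_le
    · have := le_max_left (-(a : ℝ)) 0; linarith
    · have := le_max_right (-(a : ℝ)) 0; linarith
  | succ h ih =>
    simp only [Φ]
    have h1 := ih a
    have h2 := ih (a - 1)
    linarith

lemma Φ_nonneg (h : ℕ) (a : ℤ) : 0 ≤ Φ h a := by
  induction h generalizing a with
  | zero => simp [Φ]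
  | succ h ih =>
    simp only [Φ]
    have h1 := ih a
    have h2 := ih (a - 1)
    linarith

/-- total variation of the displacement list -/
def tv : List ℤ → ℤ
  | [] => 0
  | s :: l => |s| + tv l

lemma δ_shift (a s : ℤ) : (fun x => δ a (x + s)) = δ (a - s) := by
  funext x
  unfold δ
  by_cases h : x = a - s
  · rw [if_pos h, if_pos (by omega)]
  · rw [if_neg h, if_neg (by omega)]

lemma A_δ_ge (l : List ℤ) (x : ℤ) : 2 * Φ l.length (tv l + |x|) ≤ A l (δ x) := by
  induction l generalizing x with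
  | nil =>
    simp only [List.length_nil, Φ, A, tv]
    have : (0 : ℝ) ≤ |(x : ℝ)| := abs_nonneg _
    push_cast
    rw [max_eq_right (by linarith)]
    norm_num
  | cons s l ih =>
    simp only [List.length_cons, Φ, A, tv]
    rcases lt_trichotomy x 0 with h | h | h
    · have h1 : (fun y => K (δ x) (y + s)) =
          fun y => (1/2) * δ (x - s) y + (1/2) * δ (x + 1 - s) y := by
        funext y
        rw [K_δ_neg x h]
        have e1 := congrFun (δ_shift x s) y
        have e2 := congrFun (δ_shift (x + 1) s) y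
        rw [e1, e2]
      rw [h1, A_add, A_smul, A_smul]
      have h2 : δ x 0 = 0 := by unfold δ; rw [if_neg h.ne']
      have i1 := ih (x - s)
      have i2 := ih (x + 1 - s)
      have j1 : Φ l.length (|s| + tv l + |x|) ≤ Φ l.length (tv l + |x - s|) := by
        apply Φ_anti
        have := abs_sub x s; omega
      have j2 : Φ l.length (|s| + tv l + |x| - 1) ≤ Φ l.length (tv l + |x + 1 - s|) := by
        apply Φ_anti
        have := abs_sub (x + 1) s
        have h3 : |x + 1| = |x| - 1 := by
          rw [abs_of_neg h, abs_of_nonpos (by omega)]; ring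
        omega
      rw [h2]
      linarith
    · subst h
      have h1 : (fun y => K (δ 0) (y + s)) = δ (0 - s) := by
        rw [← δ_shift]
        funext y
        rw [K_δ_zero]
      rw [h1]
      have h2 : δ 0 0 = 1 := by unfold δ; rw [if_pos rfl]
      have i1 := ih (0 - s)
      have j1 : |0 - s| = |s| := by rw [zero_sub, abs_neg]
      rw [j1] at i1
      have j2 := Φ_lip l.length (|s| + tv l + |(0:ℤ)|)
      have j3 : |s| + tv l + |(0:ℤ)| = tv l + |s| := by rw [abs_zero]; ring
      rw [j3] at j2 ⊢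
      rw [h2]
      linarith
    · have h1 : (fun y => K (δ x) (y + s)) =
          fun y => (1/2) * δ (x - s) y + (1/2) * δ (x - 1 - s) y := by
        funext y
        rw [K_δ_pos x h]
        have e1 := congrFun (δ_shift x s) y
        have e2 := congrFun (δ_shift (x - 1) s) y
        rw [e1, e2]
      rw [h1, A_add, A_smul, A_smul]
      have h2 : δ x 0 = 0 := by unfold δ; rw [if_neg h.ne]
      have i1 := ih (x - s)
      have i2 := ih (x - 1 - s)
      have j1 : Φ l.length (|s| + tv l + |x|) ≤ Φ l.length (tv l + |x - s|) := by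
        apply Φ_anti
        have := abs_sub x s; omega
      have j2 : Φ l.length (|s| + tv l + |x| - 1) ≤ Φ l.length (tv l + |x - 1 - s|) := by
        apply Φ_anti
        have := abs_sub (x - 1) s
        have h3 : |x - 1| = |x| - 1 := by
          rw [abs_of_pos h, abs_of_nonneg (by omega)]
        omega
      rw [h2]
      linarith

lemma A_one_cons (s : ℤ) (l : List ℤ) :
    1 + A l (fun _ => 1) + 2 * Φ l.length (tv l + |s|) ≤ A (s :: l) (fun _ => 1) := by
  simp only [A]
  have h1 : (fun x => K (fun _ => 1) (x + s)) = fun x => (1 : ℝ) + δ (0 - s) x := by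
    rw [← δ_shift]
    funext x
    rw [K_one]
  rw [h1, A_add l (fun _ => 1)]
  have := A_δ_ge l (0 - s)
  rw [zero_sub, abs_neg] at this
  rw [zero_sub]
  linarith

/-! the mean absolute deviation of a binomial variable -/

lemma Ψ_rec (h : ℕ) (a : ℤ) : Φ (h + 1) a + Φ (h + 1) (((h + 1 : ℕ) : ℤ) - a) =
    ((Φ h a + Φ h ((h : ℤ) - a)) + (Φ h (a - 1) + Φ h ((h : ℤ) - (a - 1)))) / 2 := by
  simp only [Φ]
  have h1 : ((h + 1 : ℕ) : ℤ) - a = (h : ℤ) - (a - 1) := by push_cast; ring
  have h2 : ((h + 1 : ℕ) : ℤ) - a - 1 = (h : ℤ) - a := by push_cast; ring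
  rw [h2, h1]
  ring

lemma Ψ_ge_abs (h : ℕ) (a : ℤ) : |(a : ℝ) - h / 2| ≤ Φ h a + Φ h ((h : ℤ) - a) := by
  induction h generalizing a with
  | zero =>
    simp only [Φ]
    push_cast
    rcases le_total (a : ℝ) 0 with h1 | h1
    · rw [abs_of_nonpos (by linarith), max_eq_left (by linarith)]
      have := le_max_right (-(0 - (a:ℝ))) 0
      linarith
    · rw [abs_of_nonneg (by linarith)]
      have := le_max_left (-(0 - (a:ℝ))) 0
      have := le_max_right (-(a:ℝ)) 0
      linarith
  | succ h ih =>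
    rw [Ψ_rec]
    have h1 := ih a
    have h2 := ih (a - 1)
    push_cast at h1 h2 ⊢
    have h3 := abs_add_le ((a : ℝ) - h / 2) ((a : ℝ) - 1 - h / 2)
    have h4 : |(a : ℝ) - h / 2 + ((a : ℝ) - 1 - h / 2)| = 2 * |(a : ℝ) - (h + 1) / 2| := by
      rw [show (a : ℝ) - h / 2 + ((a : ℝ) - 1 - h / 2) = 2 * ((a : ℝ) - (h + 1) / 2) by ring,
        abs_mul, abs_of_pos (by norm_num : (0:ℝ) < 2)]
    linarith

/-- polynomial minorant -/
noncomputable def Q (L : ℝ) (h : ℕ) (a : ℤ) : ℝ :=
  2 * ((h / 4 + ((a : ℝ) - h / 2) ^ 2) / L -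
    (((a : ℝ) - h / 2) ^ 4 + (3 / 2) * h * ((a : ℝ) - h / 2) ^ 2 +
      (3 * (h : ℝ) ^ 2 - 2 * h) / 16) / L ^ 3)

lemma Ψ_ge_Q (L : ℝ) (hL : 0 < L) (h : ℕ) (a : ℤ) : Q L h a ≤ Φ h a + Φ h ((h : ℤ) - a) := by
  induction h generalizing a with
  | zero =>
    have h1 := Ψ_ge_abs 0 a
    refine le_trans ?_ h1
    unfold Q
    push_cast
    set u : ℝ := |(a : ℝ)| / L with hu
    have hu0 : 0 ≤ u := by positivity
    have e1 : 2 * ((0 / 4 + ((a : ℝ) - 0 / 2) ^ 2) / L -
      (((a : ℝ) - 0 / 2) ^ 4 + (3 / 2) * 0 * ((a : ℝ) - 0 / 2) ^ 2 +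
      (3 * (0 : ℝ) ^ 2 - 2 * 0) / 16) / L ^ 3) = L * (2 * (u ^ 2 - u ^ 4)) := by
      rw [hu, div_pow, div_pow, sq_abs]
      have : |(a : ℝ)| ^ 4 = (a : ℝ) ^ 4 := by
        rw [show (4 : ℕ) = 2 * 2 by norm_num, pow_mul, sq_abs, ← pow_mul]
      rw [this]
      field_simp
      ring
    have e2 : |(a : ℝ) - 0 / 2| = L * u := by
      rw [hu]; field_simp; norm_num
    rw [e1, e2]
    apply mul_le_mul_of_nonneg_left _ hL.le
    nlinarith [sq_nonneg (u - 1 / 2), sq_nonneg (u ^ 2 - 1 / 3), sq_nonneg (u - 3/5),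
      mul_nonneg hu0 (sq_nonneg (u - 3 / 5)), mul_nonneg hu0 (sq_nonneg (u-1/2)),
      mul_nonneg hu0 hu0]
  | succ h ih =>
    rw [Ψ_rec]
    have h1 := ih a
    have h2 := ih (a - 1)
    have : Q L (h + 1) a = (Q L h a + Q L h (a - 1)) / 2 := by
      unfold Q
      push_cast
      field_simp
      ring
    rw [this]
    linarith

lemma Ψ_ge_sqrt (h : ℕ) (a : ℤ) : √(h : ℝ) / 9 ≤ Φ h a + Φ h ((h : ℤ) - a) := by
  rcases Nat.eq_zero_or_pos h with h0 | h0
  · subst h0
    have := Φ_nonneg 0 a
    have := Φ_nonneg 0 ((0 : ℕ) - a)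
    simp only [Nat.cast_zero, Real.sqrt_zero, zero_div] at *
    linarith
  have hh : (0 : ℝ) < h := by exact_mod_cast h0
  set r := √(h : ℝ) with hr
  have hr0 : 0 < r := Real.sqrt_pos.mpr hh
  have hr2 : r ^ 2 = h := Real.sq_sqrt hh.le
  by_cases hd : r / 2 ≤ |(a : ℝ) - h / 2|
  · have := Ψ_ge_abs h a
    linarith
  · push Not at hd
    set d := (a : ℝ) - h / 2 with hd'
    have hd2 : d ^ 2 ≤ h / 4 := by
      rw [← sq_abs, ← hr2]
      have := abs_nonneg d
      nlinarith
    have hL : 0 < √5 * r := by positivity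
    refine le_trans ?_ (Ψ_ge_Q (√5 * r) hL h a)
    unfold Q
    rw [← hd']
    have h5 : √5 ^ 2 = (5 : ℝ) := Real.sq_sqrt (by norm_num)
    have h5' : √5 ≤ 9 / 4 := by
      rw [show (9:ℝ)/4 = √((9/4)^2) by rw [Real.sqrt_sq (by norm_num)]]
      apply Real.sqrt_le_sqrt; norm_num
    have h50 : 0 < √5 := by positivity
    have m2 : (h : ℝ) / 4 ≤ h / 4 + d ^ 2 := by nlinarith [sq_nonneg d]
    have m4 : d ^ 4 + (3 / 2) * h * d ^ 2 + (3 * (h : ℝ) ^ 2 - 2 * h) / 16 ≤ 5 / 8 * h ^ 2 := by
      have : d ^ 4 ≤ (h / 4) ^ 2 := by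
        rw [show d ^ 4 = (d ^ 2) ^ 2 by ring]
        apply pow_le_pow_left₀ (sq_nonneg _) hd2
      nlinarith
    have e3 : (√5 * r) ^ 3 = 5 * h * (√5 * r) := by
      rw [show (√5 * r) ^ 3 = √5 ^ 2 * r ^ 2 * (√5 * r) by ring, h5, hr2]
    have k1 : (h : ℝ) / 4 / (√5 * r) ≤ (h / 4 + d ^ 2) / (√5 * r) := by gcongr
    have k2 : (d ^ 4 + (3 / 2) * h * d ^ 2 + (3 * (h : ℝ) ^ 2 - 2 * h) / 16) / (√5 * r) ^ 3 ≤
        (5 / 8 * h ^ 2) / (√5 * r) ^ 3 := by gcongr
    have k3 : (5 / 8 * (h:ℝ) ^ 2) / (√5 * r) ^ 3 = (h : ℝ) / 8 / (√5 * r) := by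
      rw [e3]; field_simp
    have k4 : r / 9 ≤ 2 * ((h : ℝ) / 4 / (√5 * r) - (h : ℝ) / 8 / (√5 * r)) := by
      have : 2 * ((h : ℝ) / 4 / (√5 * r) - (h : ℝ) / 8 / (√5 * r)) = r / (4 * √5) := by
        rw [← hr2]; field_simp; ring
      rw [this]
      gcongr
      linarith
    rw [k3] at k2
    linarith

/-- the two coordinates together -/
lemma two_lists (d : List (ℤ × ℤ)) (hd : ∀ q ∈ d, |q.1| + |q.2| ≤ 1) :
    tv (d.map Prod.fst) + tv (d.map Prod.snd) ≤ d.length ∧
    (2 / 9) * ∑ h ∈ Finset.range d.length, √(h : ℝ) ≤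
      A (d.map Prod.fst) (fun _ => 1) + A (d.map Prod.snd) (fun _ => 1) := by
  induction d with
  | nil => simp [tv, A]
  | cons q d ih =>
    obtain ⟨i1, i2⟩ := ih (fun q hq => hd q (List.mem_cons_of_mem _ hq))
    have hq := hd q List.mem_cons_self
    constructor
    · simp only [List.map_cons, tv, List.length_cons]
      push_cast
      omega
    · simp only [List.map_cons, List.length_cons]
      rw [Finset.sum_range_succ, mul_add]
      have h1 := A_one_cons q.1 (d.map Prod.fst)
      have h2 := A_one_cons q.2 (d.map Prod.snd)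
      rw [List.length_map] at h1 h2
      set a := tv (d.map Prod.fst) + |q.1| with ha
      set b := tv (d.map Prod.snd) + |q.2| with hb
      have hab : b ≤ (d.length : ℤ) - a + 1 := by omega
      have h3 := Φ_anti d.length hab
      have h4 := Φ_lip d.length ((d.length : ℤ) - a + 1)
      rw [add_sub_cancel_right] at h4
      have h5 := Ψ_ge_sqrt d.length a
      linarith

lemma sum_sqrt_ge (T : ℕ) : (2 / 3) * (T * √(T : ℝ)) ≤ ∑ h ∈ Finset.range (T + 1), √(h : ℝ) := by
  induction T with
  | zero => simp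
  | succ T ih =>
    rw [Finset.sum_range_succ]
    have ha : (0:ℝ) ≤ √(T : ℝ) := Real.sqrt_nonneg _
    have hb : √(T : ℝ) ≤ √((T + 1 : ℕ) : ℝ) := by
      apply Real.sqrt_le_sqrt; push_cast; linarith
    have h1 : √(T : ℝ) ^ 2 = T := Real.sq_sqrt (by positivity)
    have h2 : √((T + 1 : ℕ) : ℝ) ^ 2 = ((T + 1 : ℕ) : ℝ) := Real.sq_sqrt (by positivity)
    set a := √(T : ℝ)
    set b := √((T + 1 : ℕ) : ℝ)
    rw [← h2]
    rw [← h1] at ih
    have h3 : b ^ 2 - a ^ 2 = 1 := by rw [h1, h2]; push_cast; ring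
    have h4 : (2 / 3) * (b ^ 2 * b) - (2 / 3) * (a ^ 2 * a) ≤ b := by
      have : (2 / 3) * (b ^ 2 * b) - (2 / 3) * (a ^ 2 * a) =
        (2 / 3) * (b - a) * (b ^ 2 + b * a + a ^ 2) := by ring
      rw [this]
      have h5 : b ^ 2 + b * a + a ^ 2 ≤ (3 / 2) * b * (b + a) := by nlinarith
      have h6 : 0 ≤ (2 / 3) * (b - a) := by linarith
      calc _ ≤ (2 / 3) * (b - a) * ((3 / 2) * b * (b + a)) :=
            mul_le_mul_of_nonneg_left h5 h6
        _ = b * (b ^ 2 - a ^ 2) := by ring
        _ = b := by rw [h3, mul_one]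
    linarith


/-! ### The toroidal grid -/

/-- The toroidal grid `T_n = C_n □ C_n`; the cycle `C_n` is the circulant graph on `ZMod n` with
jump `1`. -/
def torus (n : ℕ) : SimpleGraph (ZMod n × ZMod n) :=
  circulantGraph ({1} : Set (ZMod n)) □ circulantGraph ({1} : Set (ZMod n))

section Torus

variable {n : ℕ} [NeZero n]

/-- distance to `0` on the cycle -/
def nab (a : ZMod n) : ℕ := a.valMinAbs.natAbs

lemma vma_cast (x : ℤ) (h : 2 * |x| < n) : ((x : ℤ) : ZMod n).valMinAbs = x := by
  rw [ZMod.valMinAbs_spec]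
  refine ⟨rfl, ?_, ?_⟩
  · have := neg_abs_le x; omega
  · have := le_abs_self x; omega

lemma nab_cast (x : ℤ) (h : 2 * |x| < n) : nab ((x : ℤ) : ZMod n) = x.natAbs := by
  unfold nab; rw [vma_cast x h]

lemma nab_add_one (hn : 3 ≤ n) (a : ZMod n) : nab (a + 1) ≤ nab a + 1 := by
  have h := ZMod.natAbs_valMinAbs_add_le a 1
  have h1 : (1 : ZMod n).valMinAbs = 1 := by
    have := vma_cast (n := n) 1 (by norm_num; omega)
    simpa using this
  unfold nab
  rw [h1] at h
  omega

lemma nab_sub_one (hn : 3 ≤ n) (a : ZMod n) : nab (a - 1) ≤ nab a + 1 := by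
  have h := ZMod.natAbs_valMinAbs_add_le a (-1)
  have h1 : (-1 : ZMod n).valMinAbs = -1 := by
    have := vma_cast (n := n) (-1) (by norm_num; omega)
    simpa using this
  unfold nab
  rw [h1, ← sub_eq_add_neg] at h
  omega

lemma nab_dec (a : ZMod n) (ha : nab a ≠ 0) :
    nab (a - 1) + 1 = nab a ∨ nab (a + 1) + 1 = nab a := by
  unfold nab at *
  set x := a.valMinAbs with hx
  obtain ⟨h1, h2⟩ := ZMod.valMinAbs_mem_Ioc a
  rw [← hx] at h1 h2
  have hx0 : x ≠ 0 := by intro h; rw [h] at ha; simp at ha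
  rcases lt_or_gt_of_ne hx0 with h | h
  · right
    have : (a + 1).valMinAbs = x + 1 := by
      rw [ZMod.valMinAbs_spec]
      refine ⟨by simp [hx], by omega, by omega⟩
    rw [this]; omega
  · left
    have : (a - 1).valMinAbs = x - 1 := by
      rw [ZMod.valMinAbs_spec]
      refine ⟨by simp [hx], by omega, by omega⟩
    rw [this]; omega

lemma nab_eq_zero {a : ZMod n} (h : nab a = 0) : a = 0 := by
  unfold nab at h
  have h1 : a.valMinAbs = 0 := by omega
  rw [← ZMod.coe_valMinAbs a, h1]; simp

/-- the distance function of the torus -/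
def D (p q : ZMod n × ZMod n) : ℕ := nab (p.1 - q.1) + nab (p.2 - q.2)

lemma one_ne_zero' (hn : 3 ≤ n) : (1 : ZMod n) ≠ 0 := by
  intro h
  have h1 := vma_cast (n := n) 1 (by norm_num; omega)
  have h2 := vma_cast (n := n) 0 (by norm_num; omega)
  push_cast at h1 h2
  rw [h] at h1
  omega

lemma adj_x1 (hn : 3 ≤ n) (p : ZMod n × ZMod n) : (torus n).Adj p (p.1 + 1, p.2) := by
  unfold torus
  rw [boxProd_adj]
  left
  refine ⟨?_, rfl⟩
  rw [circulantGraph_adj]
  refine ⟨?_, Or.inr (by simp)⟩
  intro h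
  apply one_ne_zero' hn
  simpa using h

lemma adj_x2 (hn : 3 ≤ n) (p : ZMod n × ZMod n) : (torus n).Adj p (p.1 - 1, p.2) := by
  unfold torus
  rw [boxProd_adj]
  left
  refine ⟨?_, rfl⟩
  rw [circulantGraph_adj]
  refine ⟨?_, Or.inl (by simp)⟩
  intro h
  apply one_ne_zero' hn
  have h' : p.1 = p.1 - 1 := h
  have := sub_eq_self.mp h'.symm
  exact this

lemma adj_y1 (hn : 3 ≤ n) (p : ZMod n × ZMod n) : (torus n).Adj p (p.1, p.2 + 1) := by
  unfold torus
  rw [boxProd_adj]
  right
  refine ⟨?_, rfl⟩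
  rw [circulantGraph_adj]
  refine ⟨?_, Or.inr (by simp)⟩
  intro h
  apply one_ne_zero' hn
  simpa using h

lemma adj_y2 (hn : 3 ≤ n) (p : ZMod n × ZMod n) : (torus n).Adj p (p.1, p.2 - 1) := by
  unfold torus
  rw [boxProd_adj]
  right
  refine ⟨?_, rfl⟩
  rw [circulantGraph_adj]
  refine ⟨?_, Or.inl (by simp)⟩
  intro h
  apply one_ne_zero' hn
  have h' : p.2 = p.2 - 1 := h
  exact sub_eq_self.mp h'.symm

lemma adj_iff {p q : ZMod n × ZMod n} (h : (torus n).Adj p q) :
    q = (p.1 + 1, p.2) ∨ q = (p.1 - 1, p.2) ∨ q = (p.1, p.2 + 1) ∨ q = (p.1, p.2 - 1) := by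
  unfold torus at h
  rw [boxProd_adj] at h
  rcases h with ⟨h, h2⟩ | ⟨h, h2⟩
  · rw [circulantGraph_adj] at h
    obtain ⟨-, h⟩ := h
    simp only [Set.mem_singleton_iff] at h
    rcases h with h | h
    · right; left
      ext
      · simp only; rw [← h]; ring
      · exact h2.symm
    · left
      ext
      · simp only; rw [← h]; ring
      · exact h2.symm
  · rw [circulantGraph_adj] at h
    obtain ⟨-, h⟩ := h
    simp only [Set.mem_singleton_iff] at h
    rcases h with h | h
    · right; right; right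
      ext
      · exact h2.symm
      · simp only; rw [← h]; ring
    · right; right; left
      ext
      · exact h2.symm
      · simp only; rw [← h]; ring

lemma D_walk (hn : 3 ≤ n) {p q : ZMod n × ZMod n} (w : (torus n).Walk p q) :
    D p q ≤ w.length := by
  induction w with
  | nil => simp [D, nab]
  | @cons u x q h w ih =>
    rw [Walk.length_cons]
    refine le_trans ?_ (Nat.add_le_add_right ih 1)
    unfold D
    rcases adj_iff h with h | h | h | h <;> subst h <;> simp only
    · have := nab_sub_one hn (u.1 + 1 - q.1)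
      rw [show u.1 + 1 - q.1 - 1 = u.1 - q.1 by ring] at this
      omega
    · have := nab_add_one hn (u.1 - 1 - q.1)
      rw [show u.1 - 1 - q.1 + 1 = u.1 - q.1 by ring] at this
      omega
    · have := nab_sub_one hn (u.2 + 1 - q.2)
      rw [show u.2 + 1 - q.2 - 1 = u.2 - q.2 by ring] at this
      omega
    · have := nab_add_one hn (u.2 - 1 - q.2)
      rw [show u.2 - 1 - q.2 + 1 = u.2 - q.2 by ring] at this
      omega

lemma D_exists (hn : 3 ≤ n) (d : ℕ) (p q : ZMod n × ZMod n) (h : D p q = d) :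
    ∃ w : (torus n).Walk p q, w.length = d := by
  induction d generalizing p with
  | zero =>
    have h1 : p = q := by
      unfold D at h
      have h2 := nab_eq_zero (a := p.1 - q.1) (by omega)
      have h3 := nab_eq_zero (a := p.2 - q.2) (by omega)
      ext
      · exact sub_eq_zero.mp h2
      · exact sub_eq_zero.mp h3
    subst h1
    exact ⟨Walk.nil, rfl⟩
  | succ d ih =>
    by_cases h1 : nab (p.1 - q.1) = 0
    · have h2 : nab (p.2 - q.2) ≠ 0 := by unfold D at h; omega
      rcases nab_dec _ h2 with h3 | h3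
      · obtain ⟨w, hw⟩ := ih (p.1, p.2 - 1) (by
          unfold D at h ⊢; simp only
          rw [show p.2 - 1 - q.2 = p.2 - q.2 - 1 by ring]; omega)
        exact ⟨Walk.cons (adj_y2 hn p) w, by simp [hw]⟩
      · obtain ⟨w, hw⟩ := ih (p.1, p.2 + 1) (by
          unfold D at h ⊢; simp only
          rw [show p.2 + 1 - q.2 = p.2 - q.2 + 1 by ring]; omega)
        exact ⟨Walk.cons (adj_y1 hn p) w, by simp [hw]⟩
    · rcases nab_dec _ h1 with h3 | h3
      · obtain ⟨w, hw⟩ := ih (p.1 - 1, p.2) (by
          unfold D at h ⊢; simp only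
          rw [show p.1 - 1 - q.1 = p.1 - q.1 - 1 by ring]; omega)
        exact ⟨Walk.cons (adj_x2 hn p) w, by simp [hw]⟩
      · obtain ⟨w, hw⟩ := ih (p.1 + 1, p.2) (by
          unfold D at h ⊢; simp only
          rw [show p.1 + 1 - q.1 = p.1 - q.1 + 1 by ring]; omega)
        exact ⟨Walk.cons (adj_x1 hn p) w, by simp [hw]⟩

lemma dist_eq (hn : 3 ≤ n) (p q : ZMod n × ZMod n) : (torus n).dist p q = D p q := by
  obtain ⟨w, hw⟩ := D_exists hn _ p q rfl
  apply le_antisymm
  · rw [← hw]; exact dist_le w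
  · obtain ⟨w', hw'⟩ := (Walk.reachable w).exists_walk_length_eq_dist
    rw [← hw']
    exact D_walk hn w'

/-- the vertex at relative position `(x, y)` -/
def emb (v : ZMod n × ZMod n) (x y : ℤ) : ZMod n × ZMod n := (v.1 + (x : ZMod n), v.2 + (y : ZMod n))

lemma emb_inj (v : ZMod n × ZMod n) {x y x' y' : ℤ} (hx : 2 * |x| < n) (hy : 2 * |y| < n)
    (hx' : 2 * |x'| < n) (hy' : 2 * |y'| < n) (h : emb v x y = emb v x' y') :
    x = x' ∧ y = y' := by
  unfold emb at h
  rw [Prod.mk.injEq] at h
  obtain ⟨h1, h2⟩ := h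
  have h1 := add_left_cancel h1
  have h2 := add_left_cancel h2
  rw [← vma_cast x hx, ← vma_cast y hy, ← vma_cast x' hx', ← vma_cast y' hy', h1, h2]
  exact ⟨rfl, rfl⟩

lemma emb_zero (v : ZMod n × ZMod n) : emb v 0 0 = v := by simp [emb]

lemma emb_emb (v : ZMod n × ZMod n) (a b x y : ℤ) :
    emb (emb v a b) x y = emb v (x + a) (y + b) := by
  unfold emb
  simp only [Prod.mk.injEq]
  constructor <;> push_cast <;> ring

lemma D_emb (v : ZMod n × ZMod n) (x y : ℤ) (hx : 2 * |x| < n) (hy : 2 * |y| < n) :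
    D (emb v x y) v = x.natAbs + y.natAbs := by
  unfold D emb
  simp only [add_sub_cancel_left]
  rw [nab_cast x hx, nab_cast y hy]

lemma closer_sub (hn : 3 ≤ n) (v : ZMod n × ZMod n) (a b : ℤ) (ha : 2 * (|a| + 1) < n)
    (hb : 2 * (|b| + 1) < n) {u : ZMod n × ZMod n} (hu : u ∈ closer (torus n) v (emb v a b)) :
    (a ≠ 0 ∧ u = emb v (a - a.sign) b) ∨ (b ≠ 0 ∧ u = emb v a (b - b.sign)) := by
  unfold closer at hu
  simp only [Finset.mem_filter, Finset.mem_univ, true_and] at hu
  obtain ⟨h1, h2⟩ := hu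
  rw [dist_eq hn, dist_eq hn, D_emb v a b (by omega) (by omega)] at h2
  have a1 := abs_add_le a 1
  have a2 := abs_sub a 1
  have b1 := abs_add_le b 1
  have b2 := abs_sub b 1
  rw [abs_one] at a1 a2 b1 b2
  rcases adj_iff h1 with h | h | h | h
  · have e : u = emb v (a + 1) b := by
      rw [h]; unfold emb; simp only [Prod.mk.injEq, and_true]; push_cast; ring
    rw [e, D_emb v _ _ (by omega) (by omega)] at h2
    left
    have ha0 : a < 0 := by omega
    refine ⟨by omega, ?_⟩
    rw [e, Int.sign_eq_neg_one_of_neg ha0]; congr 1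
  · have e : u = emb v (a - 1) b := by
      rw [h]; unfold emb; simp only [Prod.mk.injEq, and_true]; push_cast; ring
    rw [e, D_emb v _ _ (by omega) (by omega)] at h2
    left
    have ha0 : 0 < a := by omega
    refine ⟨by omega, ?_⟩
    rw [e, Int.sign_eq_one_of_pos ha0]
  · have e : u = emb v a (b + 1) := by
      rw [h]; unfold emb; simp only [Prod.mk.injEq, true_and]; push_cast; ring
    rw [e, D_emb v _ _ (by omega) (by omega)] at h2
    right
    have hb0 : b < 0 := by omega
    refine ⟨by omega, ?_⟩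
    rw [e, Int.sign_eq_neg_one_of_neg hb0]; congr 1
  · have e : u = emb v a (b - 1) := by
      rw [h]; unfold emb; simp only [Prod.mk.injEq, true_and]; push_cast; ring
    rw [e, D_emb v _ _ (by omega) (by omega)] at h2
    right
    have hb0 : 0 < b := by omega
    refine ⟨by omega, ?_⟩
    rw [e, Int.sign_eq_one_of_pos hb0]

lemma mem_closer_x (hn : 3 ≤ n) (v : ZMod n × ZMod n) (a b : ℤ) (ha : 2 * (|a| + 1) < n)
    (hb : 2 * (|b| + 1) < n) (ha0 : a ≠ 0) :
    emb v (a - a.sign) b ∈ closer (torus n) v (emb v a b) := by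
  unfold closer
  simp only [Finset.mem_filter, Finset.mem_univ, true_and]
  rw [dist_eq hn, dist_eq hn, D_emb v a b (by omega) (by omega)]
  rcases lt_or_gt_of_ne ha0 with h | h
  · rw [Int.sign_eq_neg_one_of_neg h]
    have h1 : |a - -1| = |a| - 1 := by
      rw [abs_of_neg h, abs_of_nonpos (by omega)]; ring
    rw [D_emb v _ _ (by omega) (by omega)]
    constructor
    · have := adj_x1 hn (emb v a b)
      have e : emb v (a - -1) b = ((emb v a b).1 + 1, (emb v a b).2) := by
        unfold emb; simp only [Prod.mk.injEq, and_true]; push_cast; ring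
      rwa [e]
    · omega
  · rw [Int.sign_eq_one_of_pos h]
    have h1 : |a - 1| = |a| - 1 := by
      rw [abs_of_pos h, abs_of_nonneg (by omega)]
    rw [D_emb v _ _ (by omega) (by omega)]
    constructor
    · have := adj_x2 hn (emb v a b)
      have e : emb v (a - 1) b = ((emb v a b).1 - 1, (emb v a b).2) := by
        unfold emb; simp only [Prod.mk.injEq, and_true]; push_cast; ring
      rwa [e]
    · omega

lemma mem_closer_y (hn : 3 ≤ n) (v : ZMod n × ZMod n) (a b : ℤ) (ha : 2 * (|a| + 1) < n)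
    (hb : 2 * (|b| + 1) < n) (hb0 : b ≠ 0) :
    emb v a (b - b.sign) ∈ closer (torus n) v (emb v a b) := by
  unfold closer
  simp only [Finset.mem_filter, Finset.mem_univ, true_and]
  rw [dist_eq hn, dist_eq hn, D_emb v a b (by omega) (by omega)]
  rcases lt_or_gt_of_ne hb0 with h | h
  · rw [Int.sign_eq_neg_one_of_neg h]
    have h1 : |b - -1| = |b| - 1 := by
      rw [abs_of_neg h, abs_of_nonpos (by omega)]; ring
    rw [D_emb v _ _ (by omega) (by omega)]
    constructor
    · have := adj_y1 hn (emb v a b)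
      have e : emb v a (b - -1) = ((emb v a b).1, (emb v a b).2 + 1) := by
        unfold emb; simp only [Prod.mk.injEq, true_and]; push_cast; ring
      rwa [e]
    · omega
  · rw [Int.sign_eq_one_of_pos h]
    have h1 : |b - 1| = |b| - 1 := by
      rw [abs_of_pos h, abs_of_nonneg (by omega)]
    rw [D_emb v _ _ (by omega) (by omega)]
    constructor
    · have := adj_y2 hn (emb v a b)
      have e : emb v a (b - 1) = ((emb v a b).1, (emb v a b).2 - 1) := by
        unfold emb; simp only [Prod.mk.injEq, true_and]; push_cast; ring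
      rwa [e]
    · omega

open Classical in
lemma step_ge (hn : 3 ≤ n) (v : ZMod n × ZMod n) (a b : ℤ) (ha : 2 * (|a| + 1) < n)
    (hb : 2 * (|b| + 1) < n) {u : ZMod n × ZMod n} (hu : u ∈ closer (torus n) v (emb v a b)) :
    1 / 2 ≤ step (torus n) v (emb v a b) u := by
  unfold step
  rw [if_pos hu]
  have h1 : (closer (torus n) v (emb v a b)).card ≤ 2 := by
    have : closer (torus n) v (emb v a b) ⊆ {emb v (a - a.sign) b, emb v a (b - b.sign)} := by
      intro x hx
      rcases closer_sub hn v a b ha hb hx with h | h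
      · simp [h.2]
      · simp [h.2]
    exact le_trans (Finset.card_le_card this) Finset.card_le_two
  have h2 : 0 < (closer (torus n) v (emb v a b)).card := Finset.card_pos.mpr ⟨u, hu⟩
  have h3 : ((closer (torus n) v (emb v a b)).card : ℝ) ≤ 2 := by exact_mod_cast h1
  have h4 : (0:ℝ) < ((closer (torus n) v (emb v a b)).card : ℝ) := by exact_mod_cast h2
  exact one_div_le_one_div_of_le h4 h3

lemma step_ge_one (hn : 3 ≤ n) (v : ZMod n × ZMod n) (a b : ℤ) (ha : 2 * (|a| + 1) < n)
    (hb : 2 * (|b| + 1) < n) (hab : a = 0 ∨ b = 0)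
    {u : ZMod n × ZMod n} (hu : u ∈ closer (torus n) v (emb v a b)) :
    1 ≤ step (torus n) v (emb v a b) u := by
  unfold step
  rw [if_pos hu]
  have h1 : (closer (torus n) v (emb v a b)).card ≤ 1 := by
    rw [Finset.card_le_one]
    intro x hx y hy
    have hx' := closer_sub hn v a b ha hb hx
    have hy' := closer_sub hn v a b ha hb hy
    rcases hab with h | h
    · rcases hx' with h' | h'
      · exact absurd h h'.1
      · rcases hy' with h'' | h''
        · exact absurd h h''.1
        · rw [h'.2, h''.2]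
    · rcases hx' with h' | h'
      · rcases hy' with h'' | h''
        · rw [h'.2, h''.2]
        · exact absurd h h''.1
      · exact absurd h h'.1
  have h2 : 0 < (closer (torus n) v (emb v a b)).card := Finset.card_pos.mpr ⟨u, hu⟩
  have h3 : (closer (torus n) v (emb v a b)).card = 1 := by omega
  rw [h3]; norm_num

end Torus


section Main

variable {n : ℕ} [NeZero n]

lemma two_le_sum {V : Type} [Fintype V] [DecidableEq V] (f : V → ℝ) (hf : ∀ z, 0 ≤ f z)
    {z1 z2 : V} (h : z1 ≠ z2) : f z1 + f z2 ≤ ∑ z, f z := by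
  rw [← Finset.sum_pair h]
  exact Finset.sum_le_sum_of_subset_of_nonneg (Finset.subset_univ _) (fun z _ _ => hf z)

lemma three_le_sum {V : Type} [Fintype V] [DecidableEq V] (f : V → ℝ) (hf : ∀ z, 0 ≤ f z)
    {z1 z2 z3 : V} (h12 : z1 ≠ z2) (h13 : z1 ≠ z3) (h23 : z2 ≠ z3) :
    f z1 + (f z2 + f z3) ≤ ∑ z, f z := by
  rw [← Finset.sum_pair h23, ← Finset.sum_insert (a := z1) (by simp [h12, h13])]
  exact Finset.sum_le_sum_of_subset_of_nonneg (Finset.subset_univ _) (fun z _ _ => hf z)

lemma sign_add_sign {X : ℤ} (hX : X ≠ 0) : X + X.sign - (X + X.sign).sign = X ∧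
    |X + X.sign| = |X| + 1 := by
  rcases lt_or_gt_of_ne hX with h | h
  · rw [Int.sign_eq_neg_one_of_neg h]
    rw [Int.sign_eq_neg_one_of_neg (show X + -1 < 0 by omega)]
    rw [abs_of_neg h, abs_of_neg (show X + -1 < 0 by omega)]
    omega
  · rw [Int.sign_eq_one_of_pos h]
    rw [Int.sign_eq_one_of_pos (show 0 < X + 1 by omega)]
    rw [abs_of_pos h, abs_of_pos (show 0 < X + 1 by omega)]
    omega

/-- the invariant: in the window of radius `r` around the survivor, the mass is at least the
one-dimensional masses, except at the survivor and at one neighbouring hole -/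
def Inv (v : ZMod n × ZMod n) (μ : ZMod n × ZMod n → ℝ) (hx hy r : ℤ) (m w : ℤ → ℝ) : Prop :=
  ∀ x y : ℤ, |x| ≤ r → |y| ≤ r → ¬ (x = 0 ∧ y = 0) → ¬ (x = hx ∧ y = hy) →
    m x ≤ μ (emb v x y) ∧ w y ≤ μ (emb v x y)

/-- inflow -/
noncomputable def inflow (v : ZMod n × ZMod n) (μ : ZMod n × ZMod n → ℝ)
    (u : ZMod n × ZMod n) : ℝ := ∑ z, μ z * step (torus n) v z u

lemma inflow_ge (hn : 3 ≤ n) (v : ZMod n × ZMod n) (μ : ZMod n × ZMod n → ℝ)
    (hμ : ∀ z, 0 ≤ μ z) (hx hy r : ℤ) (m w : ℤ → ℝ) (hh : |hx| + |hy| ≤ 1)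
    (hm : ∀ x, 0 ≤ m x) (hw : ∀ x, 0 ≤ w x) (hI : Inv v μ hx hy r m w)
    (hr : 2 * (r + 1) < n) (X Y : ℤ) (hX : |X| ≤ r - 1) (hY : |Y| ≤ r - 1)
    (h0 : ¬ (X = 0 ∧ Y = 0)) :
    K m X ≤ inflow v μ (emb v X Y) ∧ K w Y ≤ inflow v μ (emb v X Y) := by
  have hf : ∀ z, 0 ≤ μ z * step (torus n) v z (emb v X Y) :=
    fun z => mul_nonneg (hμ z) (step_nonneg _ _ _ _)
  have hxx := abs_nonneg X
  have hyy := abs_nonneg Y
  have ahx := abs_nonneg hx
  have ahy := abs_nonneg hy
  have e1 : |(1:ℤ)| = 1 := abs_one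
  have e2 : |(-1:ℤ)| = 1 := by norm_num
  have e0 : |(0:ℤ)| = 0 := abs_zero
  by_cases hX0 : X = 0
  · subst hX0
    have hY0 : Y ≠ 0 := fun h => h0 ⟨rfl, h⟩
    obtain ⟨s1, s2⟩ := sign_add_sign hY0
    have hYpos : 0 < |Y| := abs_pos.mpr hY0
    have ne12 : emb v 0 (Y + Y.sign) ≠ emb v 1 Y := by
      intro h
      have := (emb_inj v (by omega) (by omega) (by omega) (by omega) h).1
      omega
    have ne13 : emb v 0 (Y + Y.sign) ≠ emb v (-1) Y := by
      intro h
      have := (emb_inj v (by omega) (by omega) (by omega) (by omega) h).1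
      omega
    have ne23 : emb v 1 Y ≠ emb v (-1) Y := by
      intro h
      have := (emb_inj v (by omega) (by omega) (by omega) (by omega) h).1
      omega
    have hsum := three_le_sum _ hf ne12 ne13 ne23
    have st1 : 1 ≤ step (torus n) v (emb v 0 (Y + Y.sign)) (emb v 0 Y) := by
      apply step_ge_one hn v 0 (Y + Y.sign) (by omega) (by omega) (Or.inl rfl)
      have := mem_closer_y hn v 0 (Y + Y.sign) (by omega) (by omega)
        (by intro h; rw [h, abs_zero] at s2; omega)
      rwa [s1] at this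
    have st2 : 1 / 2 ≤ step (torus n) v (emb v 1 Y) (emb v 0 Y) := by
      apply step_ge hn v 1 Y (by omega) (by omega)
      have := mem_closer_x hn v 1 Y (by omega) (by omega) (by omega)
      simpa using this
    have st3 : 1 / 2 ≤ step (torus n) v (emb v (-1) Y) (emb v 0 Y) := by
      apply step_ge hn v (-1) Y (by omega) (by omega)
      have := mem_closer_x hn v (-1) Y (by omega) (by omega) (by omega)
      simpa using this
    obtain ⟨m1, w1⟩ := hI 0 (Y + Y.sign) (by omega) (by omega)
      (by rintro ⟨-, h⟩; rw [h, abs_zero] at s2; omega)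
      (by rintro ⟨-, h⟩; rw [h] at s2; omega)
    obtain ⟨m2, w2⟩ := hI 1 Y (by omega) (by omega) (by omega)
      (by rintro ⟨h, h'⟩; rw [← h, ← h'] at hh; omega)
    obtain ⟨m3, w3⟩ := hI (-1) Y (by omega) (by omega) (by omega)
      (by rintro ⟨h, h'⟩; rw [← h, ← h'] at hh; omega)
    have p1 : μ (emb v 0 (Y + Y.sign)) * 1 ≤ μ (emb v 0 (Y + Y.sign)) *
        step (torus n) v (emb v 0 (Y + Y.sign)) (emb v 0 Y) :=
      mul_le_mul_of_nonneg_left st1 (hμ _)
    have p2 : μ (emb v 1 Y) * (1 / 2) ≤ μ (emb v 1 Y) *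
        step (torus n) v (emb v 1 Y) (emb v 0 Y) := mul_le_mul_of_nonneg_left st2 (hμ _)
    have p3 : μ (emb v (-1) Y) * (1 / 2) ≤ μ (emb v (-1) Y) *
        step (torus n) v (emb v (-1) Y) (emb v 0 Y) := mul_le_mul_of_nonneg_left st3 (hμ _)
    unfold inflow K
    rw [if_pos rfl, if_neg hY0]
    have := hw Y
    have := hw (Y + Y.sign)
    constructor <;> linarith
  · by_cases hY0 : Y = 0
    · subst hY0
      obtain ⟨s1, s2⟩ := sign_add_sign hX0
      have hXpos : 0 < |X| := abs_pos.mpr hX0
      have ne12 : emb v (X + X.sign) 0 ≠ emb v X 1 := by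
        intro h
        have := (emb_inj v (by omega) (by omega) (by omega) (by omega) h).2
        omega
      have ne13 : emb v (X + X.sign) 0 ≠ emb v X (-1) := by
        intro h
        have := (emb_inj v (by omega) (by omega) (by omega) (by omega) h).2
        omega
      have ne23 : emb v X 1 ≠ emb v X (-1) := by
        intro h
        have := (emb_inj v (by omega) (by omega) (by omega) (by omega) h).2
        omega
      have hsum := three_le_sum _ hf ne12 ne13 ne23
      have st1 : 1 ≤ step (torus n) v (emb v (X + X.sign) 0) (emb v X 0) := by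
        apply step_ge_one hn v (X + X.sign) 0 (by omega) (by omega) (Or.inr rfl)
        have := mem_closer_x hn v (X + X.sign) 0 (by omega) (by omega)
          (by intro h; rw [h, abs_zero] at s2; omega)
        rwa [s1] at this
      have st2 : 1 / 2 ≤ step (torus n) v (emb v X 1) (emb v X 0) := by
        apply step_ge hn v X 1 (by omega) (by omega)
        have := mem_closer_y hn v X 1 (by omega) (by omega) (by omega)
        simpa using this
      have st3 : 1 / 2 ≤ step (torus n) v (emb v X (-1)) (emb v X 0) := by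
        apply step_ge hn v X (-1) (by omega) (by omega)
        have := mem_closer_y hn v X (-1) (by omega) (by omega) (by omega)
        simpa using this
      obtain ⟨m1, w1⟩ := hI (X + X.sign) 0 (by omega) (by omega)
        (by rintro ⟨h, -⟩; rw [h, abs_zero] at s2; omega)
        (by rintro ⟨h, -⟩; rw [h] at s2; omega)
      obtain ⟨m2, w2⟩ := hI X 1 (by omega) (by omega) (by omega)
        (by rintro ⟨h, h'⟩; rw [← h, ← h'] at hh; omega)
      obtain ⟨m3, w3⟩ := hI X (-1) (by omega) (by omega) (by omega)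
        (by rintro ⟨h, h'⟩; rw [← h, ← h'] at hh; omega)
      have p1 : μ (emb v (X + X.sign) 0) * 1 ≤ μ (emb v (X + X.sign) 0) *
          step (torus n) v (emb v (X + X.sign) 0) (emb v X 0) :=
        mul_le_mul_of_nonneg_left st1 (hμ _)
      have p2 : μ (emb v X 1) * (1 / 2) ≤ μ (emb v X 1) *
          step (torus n) v (emb v X 1) (emb v X 0) := mul_le_mul_of_nonneg_left st2 (hμ _)
      have p3 : μ (emb v X (-1)) * (1 / 2) ≤ μ (emb v X (-1)) *
          step (torus n) v (emb v X (-1)) (emb v X 0) := mul_le_mul_of_nonneg_left st3 (hμ _)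
      unfold inflow K
      rw [if_pos rfl, if_neg hX0]
      have := hm X
      have := hm (X + X.sign)
      constructor <;> linarith
    · obtain ⟨s1, s2⟩ := sign_add_sign hX0
      obtain ⟨t1, t2⟩ := sign_add_sign hY0
      have hXpos : 0 < |X| := abs_pos.mpr hX0
      have hYpos : 0 < |Y| := abs_pos.mpr hY0
      have ne12 : emb v (X + X.sign) Y ≠ emb v X (Y + Y.sign) := by
        intro h
        have := (emb_inj v (by omega) (by omega) (by omega) (by omega) h).1
        rw [this] at s2; omega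
      have hsum := two_le_sum _ hf ne12
      have st1 : 1 / 2 ≤ step (torus n) v (emb v (X + X.sign) Y) (emb v X Y) := by
        apply step_ge hn v (X + X.sign) Y (by omega) (by omega)
        have := mem_closer_x hn v (X + X.sign) Y (by omega) (by omega)
          (by intro h; rw [h, abs_zero] at s2; omega)
        rwa [s1] at this
      have st2 : 1 / 2 ≤ step (torus n) v (emb v X (Y + Y.sign)) (emb v X Y) := by
        apply step_ge hn v X (Y + Y.sign) (by omega) (by omega)
        have := mem_closer_y hn v X (Y + Y.sign) (by omega) (by omega)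
          (by intro h; rw [h, abs_zero] at t2; omega)
        rwa [t1] at this
      obtain ⟨m1, w1⟩ := hI (X + X.sign) Y (by omega) (by omega)
        (by rintro ⟨-, h⟩; exact hY0 h)
        (by rintro ⟨h, h'⟩; rw [← h, ← h'] at hh; omega)
      obtain ⟨m2, w2⟩ := hI X (Y + Y.sign) (by omega) (by omega)
        (by rintro ⟨h, -⟩; exact hX0 h)
        (by rintro ⟨h, h'⟩; rw [← h, ← h'] at hh; omega)
      have p1 : μ (emb v (X + X.sign) Y) * (1 / 2) ≤ μ (emb v (X + X.sign) Y) *
          step (torus n) v (emb v (X + X.sign) Y) (emb v X Y) :=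
        mul_le_mul_of_nonneg_left st1 (hμ _)
      have p2 : μ (emb v X (Y + Y.sign)) * (1 / 2) ≤ μ (emb v X (Y + Y.sign)) *
          step (torus n) v (emb v X (Y + Y.sign)) (emb v X Y) :=
        mul_le_mul_of_nonneg_left st2 (hμ _)
      unfold inflow K
      rw [if_neg hX0, if_neg hY0]
      constructor <;> linarith

lemma inflow_zero (hn : 3 ≤ n) (v : ZMod n × ZMod n) (μ : ZMod n × ZMod n → ℝ)
    (hμ : ∀ z, 0 ≤ μ z) (hx hy r : ℤ) (m w : ℤ → ℝ) (hh : |hx| + |hy| ≤ 1)
    (hI : Inv v μ hx hy r m w)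
    (hr : 2 * (r + 1) < n) (hr1 : 1 ≤ r) :
    m 0 + w 0 ≤ inflow v μ v := by
  have hf : ∀ z, 0 ≤ μ z * step (torus n) v z v :=
    fun z => mul_nonneg (hμ z) (step_nonneg _ _ _ _)
  have e0 : |(0:ℤ)| = 0 := abs_zero
  have ahx := abs_nonneg hx
  have ahy := abs_nonneg hy
  obtain ⟨e, he, he'⟩ : ∃ e : ℤ, (e = 1 ∨ e = -1) ∧ ¬ (0 = hx ∧ e = hy) := by
    by_cases h : (0 = hx ∧ 1 = hy)
    · exact ⟨-1, Or.inr rfl, by omega⟩
    · exact ⟨1, Or.inl rfl, h⟩
  obtain ⟨f, hf1, hf'⟩ : ∃ e : ℤ, (e = 1 ∨ e = -1) ∧ ¬ (e = hx ∧ 0 = hy) := by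
    by_cases h : (1 = hx ∧ 0 = hy)
    · exact ⟨-1, Or.inr rfl, by omega⟩
    · exact ⟨1, Or.inl rfl, h⟩
  have ae : |e| = 1 := by rcases he with h | h <;> rw [h] <;> norm_num
  have af : |f| = 1 := by rcases hf1 with h | h <;> rw [h] <;> norm_num
  have se : e - e.sign = 0 := by rcases he with h | h <;> rw [h] <;> norm_num
  have sf : f - f.sign = 0 := by rcases hf1 with h | h <;> rw [h] <;> norm_num
  have ne : emb v 0 e ≠ emb v f 0 := by
    intro h
    have := (emb_inj v (by omega) (by omega) (by omega) (by omega) h).1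
    omega
  have hsum := two_le_sum _ hf ne
  have st1 : 1 ≤ step (torus n) v (emb v 0 e) v := by
    apply step_ge_one hn v 0 e (by omega) (by omega) (Or.inl rfl)
    have := mem_closer_y hn v 0 e (by omega) (by omega) (by omega)
    rwa [se, emb_zero] at this
  have st2 : 1 ≤ step (torus n) v (emb v f 0) v := by
    apply step_ge_one hn v f 0 (by omega) (by omega) (Or.inr rfl)
    have := mem_closer_x hn v f 0 (by omega) (by omega) (by omega)
    rwa [sf, emb_zero] at this
  have m1 := (hI 0 e (by omega) (by omega) (by omega) he').1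
  have w1 := (hI f 0 (by omega) (by omega) (by omega) hf').2
  have p1 : μ (emb v 0 e) * 1 ≤ μ (emb v 0 e) * step (torus n) v (emb v 0 e) v :=
    mul_le_mul_of_nonneg_left st1 (hμ _)
  have p2 : μ (emb v f 0) * 1 ≤ μ (emb v f 0) * step (torus n) v (emb v f 0) v :=
    mul_le_mul_of_nonneg_left st2 (hμ _)
  unfold inflow
  linarith

/-- the trajectory with given displacements -/
def pos (v : ZMod n × ZMod n) : List (ℤ × ℤ) → List (ZMod n × ZMod n)
  | [] => []
  | q :: d => emb v q.1 q.2 :: pos (emb v q.1 q.2) d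

lemma K_nonneg {m : ℤ → ℝ} (hm : ∀ x, 0 ≤ m x) (x : ℤ) : 0 ≤ K m x := by
  unfold K
  split_ifs
  · linarith [hm 0, hm 1, hm (-1)]
  · linarith [hm x, hm (x + x.sign)]

lemma fwd_sum_le (v v' : ZMod n × ZMod n) (μ : ZMod n × ZMod n → ℝ) (hμ : ∀ z, 0 ≤ μ z) :
    ∑ z', fwd (torus n) v v' μ z' ≤ ∑ z, μ z - inflow v μ v := by
  have h1 : ∀ z', fwd (torus n) v v' μ z' ≤ inflow v μ z' - (if z' = v then inflow v μ v else 0) := by
    intro z'
    have h0 : 0 ≤ inflow v μ z' :=
      Finset.sum_nonneg (fun z _ => mul_nonneg (hμ z) (step_nonneg _ _ _ _))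
    unfold fwd
    by_cases h : z' = v
    · rw [if_pos (Or.inl h), if_pos h, h]; linarith
    · rw [if_neg h]
      split_ifs
      · linarith
      · unfold inflow; linarith
  have h2 : ∑ z', inflow v μ z' ≤ ∑ z, μ z := by
    unfold inflow
    rw [Finset.sum_comm]
    apply Finset.sum_le_sum
    intro z _
    rw [← Finset.mul_sum]
    have := step_sum_le (torus n) v z
    have := mul_le_mul_of_nonneg_left this (hμ z)
    linarith
  calc ∑ z', fwd (torus n) v v' μ z'
      ≤ ∑ z', (inflow v μ z' - (if z' = v then inflow v μ v else 0)) :=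
        Finset.sum_le_sum (fun z' _ => h1 z')
    _ = ∑ z', inflow v μ z' - inflow v μ v := by
        rw [Finset.sum_sub_distrib, Finset.sum_ite_eq']
        simp
    _ ≤ _ := by linarith

lemma mass_le (hn : 3 ≤ n) (d : List (ℤ × ℤ)) (hd : ∀ q ∈ d, |q.1| + |q.2| ≤ 1) :
    ∀ (v : ZMod n × ZMod n) (μ : ZMod n × ZMod n → ℝ) (hx hy r : ℤ) (m w : ℤ → ℝ),
    (∀ z, 0 ≤ μ z) → |hx| + |hy| ≤ 1 → (∀ x, 0 ≤ m x) → (∀ x, 0 ≤ w x) →
    Inv v μ hx hy r m w → 2 * (r + 1) < n → 2 * (d.length : ℤ) ≤ r →
    mass (torus n) v (pos v d) μ ≤ ∑ z, μ z - A (d.map Prod.fst) m - A (d.map Prod.snd) w := by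
  induction d with
  | nil =>
    intro v μ hx hy r m w _ _ _ _ _ _ _
    simp [mass, pos, A]
  | cons q d ih =>
    intro v μ hx hy r m w hμ hh hm hw hI hr hlen
    simp only [pos, mass, List.map_cons, A]
    rw [List.length_cons] at hlen
    push_cast at hlen
    have hq := hd q List.mem_cons_self
    have aq1 := abs_nonneg q.1
    have aq2 := abs_nonneg q.2
    set v' := emb v q.1 q.2 with hv'
    have hμ' : ∀ z, 0 ≤ fwd (torus n) v v' μ z := by
      intro z
      unfold fwd
      split_ifs
      · exact le_rfl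
      · exact Finset.sum_nonneg (fun z _ => mul_nonneg (hμ z) (step_nonneg _ _ _ _))
    have hI' : Inv v' (fwd (torus n) v v' μ) (-q.1) (-q.2) (r - 2)
        (fun x => K m (x + q.1)) (fun x => K w (x + q.2)) := by
      intro x y hxr hyr h0 hhole
      have b1 := abs_add_le x q.1
      have b2 := abs_add_le y q.2
      have e : emb v' x y = emb v (x + q.1) (y + q.2) := by rw [hv', emb_emb]
      have h00 : ¬ (x + q.1 = 0 ∧ y + q.2 = 0) := by
        rintro ⟨h1, h2⟩
        exact hhole ⟨by omega, by omega⟩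
      have key := inflow_ge hn v μ hμ hx hy r m w hh hm hw hI hr (x + q.1) (y + q.2)
        (by omega) (by omega) h00
      have hne1 : emb v (x + q.1) (y + q.2) ≠ v := by
        intro h
        rw [← emb_zero v, emb_emb] at h
        have := emb_inj v (by simp only [add_zero]; omega) (by simp only [add_zero]; omega)
          (by rw [abs_zero]; omega) (by rw [abs_zero]; omega) h
        apply h00
        constructor <;> omega
      have hne2 : emb v (x + q.1) (y + q.2) ≠ v' := by
        intro h
        rw [hv'] at h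
        have := emb_inj v (by omega) (by omega) (by omega) (by omega) h
        apply h0
        constructor <;> omega
      have hfw : fwd (torus n) v v' μ (emb v' x y) = inflow v μ (emb v (x + q.1) (y + q.2)) := by
        rw [e]
        unfold fwd inflow
        rw [if_neg (by rintro (h | h); exacts [hne1 h, hne2 h])]
      rw [hfw]
      exact key
    have h1 := ih (fun q hq => hd q (List.mem_cons_of_mem _ hq)) v' (fwd (torus n) v v' μ)
      (-q.1) (-q.2) (r - 2) (fun x => K m (x + q.1)) (fun x => K w (x + q.2)) hμ'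
      (by rw [abs_neg, abs_neg]; exact hq) (fun x => K_nonneg hm _) (fun x => K_nonneg hw _)
      hI' (by omega) (by omega)
    have h2 := fwd_sum_le v v' μ hμ
    have h3 := inflow_zero hn v μ hμ hx hy r m w hh hI hr (by omega)
    linarith

lemma legal_pos (v : ZMod n × ZMod n) (l : List (ZMod n × ZMod n)) (hl : Legal (torus n) v l) :
    ∃ d : List (ℤ × ℤ), (∀ q ∈ d, |q.1| + |q.2| ≤ 1) ∧ l = pos v d ∧ d.length = l.length := by
  induction l generalizing v with
  | nil => exact ⟨[], by simp, rfl, rfl⟩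
  | cons v' l ih =>
    obtain ⟨h1, h2⟩ := hl
    obtain ⟨d, hd1, hd2, hd3⟩ := ih v' h2
    have : ∃ q : ℤ × ℤ, |q.1| + |q.2| ≤ 1 ∧ v' = emb v q.1 q.2 := by
      simp only [nbd, Finset.mem_filter, Finset.mem_univ, true_and] at h1
      rcases h1 with h | h
      · exact ⟨(0, 0), by norm_num, by rw [h, emb_zero]⟩
      · rcases adj_iff h with h | h | h | h
        · exact ⟨(1, 0), by norm_num, by rw [h]; simp [emb]⟩
        · exact ⟨(-1, 0), by norm_num, by rw [h]; simp [emb, sub_eq_add_neg]⟩
        · exact ⟨(0, 1), by norm_num, by rw [h]; simp [emb]⟩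
        · exact ⟨(0, -1), by norm_num, by rw [h]; simp [emb, sub_eq_add_neg]⟩
    obtain ⟨q, hq1, hq2⟩ := this
    refine ⟨q :: d, ?_, ?_, by simp [hd3]⟩
    · intro q' hq'
      rcases List.mem_cons.mp hq' with h | h
      · rw [h]; exact hq1
      · exact hd1 q' h
    · simp only [pos]
      rw [← hq2, ← hd2]

lemma total_le (hn : 3 ≤ n) (L : ℕ) (hL : 2 * (2 * L + 1) < n) (v : ZMod n × ZMod n)
    (l : List (ZMod n × ZMod n)) (hl : l.length = L) (hleg : Legal (torus n) v l) :
    ∑ z, (if z = v then 0 else S (torus n) v l z) ≤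
      (n : ℝ) ^ 2 - 1 - (2 / 9) * ∑ h ∈ Finset.range L, √(h : ℝ) := by
  obtain ⟨d, hd1, hd2, hd3⟩ := legal_pos v l hleg
  set μ : ZMod n × ZMod n → ℝ := fun z => if z = v then 0 else 1 with hμ
  have h1 : ∑ z, (if z = v then 0 else S (torus n) v l z) = mass (torus n) v l μ := by
    rw [← mass_eq]
    apply Finset.sum_congr rfl
    intro z _
    rw [hμ]
    simp only
    split_ifs <;> ring
  have h2 : ∑ z, μ z = (n : ℝ) ^ 2 - 1 := by
    have : ∀ z, μ z = 1 - (if z = v then 1 else 0) := by
      intro z; rw [hμ]; simp only; split_ifs <;> norm_num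
    simp_rw [this]
    rw [Finset.sum_sub_distrib, Finset.sum_ite_eq']
    simp [ZMod.card]
    ring
  have h3 := mass_le hn d hd1 v μ 0 0 (2 * L) (fun _ => 1) (fun _ => 1)
    (by intro z; rw [hμ]; simp only; split_ifs <;> norm_num) (by norm_num)
    (fun _ => by norm_num) (fun _ => by norm_num)
    (by
      intro x y hx hy h0 _
      have : emb v x y ≠ v := by
        intro h
        rw [← emb_zero v, emb_emb] at h
        have := emb_inj v (by simp only [add_zero]; omega) (by simp only [add_zero]; omega)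
          (by rw [abs_zero]; omega) (by rw [abs_zero]; omega) h
        apply h0
        constructor <;> omega
      rw [hμ]
      simp only [if_neg this]
      exact ⟨le_rfl, le_rfl⟩)
    (by omega) (by omega)
  obtain ⟨-, h4⟩ := two_lists d hd1
  rw [← hd2, h2] at h3
  rw [hd3, hl] at h4
  rw [h1]
  linarith

end Main


section Final

variable {n : ℕ} [NeZero n]

lemma nbd_card (v : ZMod n × ZMod n) : (nbd (torus n) v).card ≤ 5 := by
  have : nbd (torus n) v ⊆ {v, (v.1 + 1, v.2), (v.1 - 1, v.2), (v.1, v.2 + 1), (v.1, v.2 - 1)} := by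
    intro u hu
    simp only [nbd, Finset.mem_filter, Finset.mem_univ, true_and] at hu
    simp only [Finset.mem_insert, Finset.mem_singleton]
    rcases hu with h | h
    · exact Or.inl h
    · exact Or.inr (adj_iff h)
  exact le_trans (Finset.card_le_card this) Finset.card_le_five

lemma s_le_of {V : Type} [Fintype V] [DecidableEq V] [Nonempty V] (G : SimpleGraph V) (k T : ℕ)
    (B : ℝ) (h : ∀ σ : Strategy V k, survProb G σ T ≤ B) : s k G ≤ B := by
  unfold s
  have : Nonempty (Strategy V k) := ⟨fun _ => Classical.arbitrary V⟩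
  apply ciSup_le
  intro σ
  refine ciInf_le_of_le ⟨0, ?_⟩ T (h σ)
  rintro x ⟨T', rfl⟩
  exact survProb_nonneg G σ T'

lemma s_torus_le (hn : 3 ≤ n) (L k : ℕ) (hL : 2 * (2 * L + 1) < n) (N : ℝ) (_hN0 : 0 ≤ N)
    (hN : N ≤ 1 + (2 / 9) * ∑ h ∈ Finset.range L, √(h : ℝ)) :
    s k (torus n) ≤ (n : ℝ) ^ 2 * 5 ^ L * Real.exp (-(k * (N / (n : ℝ) ^ 2))) := by
  apply s_le_of (torus n) k L
  intro σ
  have hn0 : (0 : ℝ) < n := by
    have : 0 < n := by omega
    exact_mod_cast this
  set M : ℝ := (n : ℝ) ^ 2 - 1 - (2 / 9) * ∑ h ∈ Finset.range L, √(h : ℝ) with hM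
  have htot : ∀ (v : ZMod n × ZMod n) (l : List (ZMod n × ZMod n)), l.length = L →
      Legal (torus n) v l → ∑ z, (if z = v then 0 else S (torus n) v l z) ≤ M :=
    fun v l hl hleg => total_le hn L hL v l hl hleg
  have hM0 : 0 ≤ M := by
    -- there is a legal trajectory: stay put
    have hleg : ∀ (L : ℕ) (v : ZMod n × ZMod n), Legal (torus n) v (List.replicate L v) := by
      intro L v
      induction L with
      | zero => trivial
      | succ L ih =>
        rw [List.replicate_succ]
        refine ⟨?_, ih⟩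
        simp [nbd]
    have := htot 0 (List.replicate L 0) (by simp) (hleg L 0)
    refine le_trans ?_ this
    apply Finset.sum_nonneg
    intro z _
    split_ifs
    · exact le_rfl
    · exact S_nonneg _ _ _ _
  have h1 := survProb_le (torus n) σ L 5 nbd_card M hM0 htot
  have hcard : (Fintype.card (ZMod n × ZMod n) : ℝ) = (n : ℝ) ^ 2 := by
    rw [Fintype.card_prod, ZMod.card]; push_cast; ring
  rw [hcard] at h1
  refine le_trans h1 ?_
  push_cast
  apply mul_le_mul_of_nonneg_left _ (by positivity)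
  have h2 : M / (n : ℝ) ^ 2 ≤ Real.exp (-(N / (n : ℝ) ^ 2)) := by
    have h3 := Real.add_one_le_exp (-(N / (n : ℝ) ^ 2))
    refine le_trans ?_ h3
    rw [div_le_iff₀ (by positivity)]
    have : (-(N / (n : ℝ) ^ 2) + 1) * (n : ℝ) ^ 2 = (n : ℝ) ^ 2 - N := by
      field_simp; ring
    rw [this]
    linarith
  calc (M / (n : ℝ) ^ 2) ^ k ≤ (Real.exp (-(N / (n : ℝ) ^ 2))) ^ k :=
        pow_le_pow_left₀ (by positivity) h2 k
    _ = Real.exp (-(k * (N / (n : ℝ) ^ 2))) := by
        rw [← Real.exp_nat_mul]; congr 1; ring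

lemma rpow_eq (n : ℕ) : (n : ℝ) ^ (3 / 2 : ℝ) = n * √(n : ℝ) := by
  rcases Nat.eq_zero_or_pos n with h | h
  · subst h
    simp
  · have : (0 : ℝ) < n := by exact_mod_cast h
    rw [show (3 / 2 : ℝ) = 1 + 1 / 2 by norm_num, Real.rpow_add this, Real.rpow_one,
      ← Real.sqrt_eq_rpow]

lemma main_bound (hn : 3 ≤ n) (k : ℕ) (hk : 1728 * ((n : ℝ) * √(n : ℝ)) ≤ k) :
    s k (torus n) ≤ 1 / 2 := by
  have hn3 : (3 : ℝ) ≤ n := by exact_mod_cast hn
  set r := √(n : ℝ) with hr
  have hr2 : r ^ 2 = n := Real.sq_sqrt (by linarith)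
  have hr0 : 0 < r := Real.sqrt_pos.mpr (by linarith)
  by_cases h32 : n < 32
  · have h1 := s_torus_le hn 0 k (by omega) 1 (by norm_num) (by simp)
    refine le_trans h1 ?_
    have hn32 : (n : ℝ) ≤ 32 := by exact_mod_cast h32.le
    have hr6 : r ≤ 6 := by nlinarith
    have h2 : 288 ≤ (k : ℝ) * (1 / (n : ℝ) ^ 2) := by
      rw [mul_one_div, le_div_iff₀ (by positivity)]
      refine le_trans ?_ hk
      rw [← hr2]
      have : 288 * r ≤ 1728 := by linarith
      nlinarith [pow_pos hr0 3]
    have h3 : Real.exp (-((k : ℝ) * (1 / (n : ℝ) ^ 2))) ≤ Real.exp (-288) := by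
      apply Real.exp_le_exp.mpr; linarith
    have h4 : Real.exp (-288) ≤ 1 / 41760 := by
      rw [Real.exp_neg, inv_eq_one_div]
      apply one_div_le_one_div_of_le (by norm_num)
      have := Real.quadratic_le_exp_of_nonneg (show (0:ℝ) ≤ 288 by norm_num)
      norm_num at this
      linarith
    have h5 : (n : ℝ) ^ 2 ≤ 1024 := by nlinarith
    calc (n : ℝ) ^ 2 * 5 ^ 0 * Real.exp (-((k : ℝ) * (1 / (n : ℝ) ^ 2)))
        ≤ 1024 * 1 * (1 / 41760) := by
          gcongr
          · norm_num
          · linarith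
      _ ≤ 1 / 2 := by norm_num
  · push Not at h32
    have hn32 : (32 : ℝ) ≤ n := by exact_mod_cast h32
    obtain ⟨T, hT⟩ : ∃ T, n / 8 = T + 1 := ⟨n / 8 - 1, by omega⟩
    have hT16 : (n : ℝ) / 16 ≤ T := by
      have : n ≤ 16 * T := by omega
      have : (n : ℝ) ≤ 16 * T := by exact_mod_cast this
      linarith
    have hTs : r / 4 ≤ √(T : ℝ) := by
      have : r / 4 = √((n : ℝ) / 16) := by
        rw [Real.sqrt_div' _ (by norm_num)]
        congr 1
        rw [show (16 : ℝ) = 4 ^ 2 by norm_num, Real.sqrt_sq (by norm_num)]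
      rw [this]
      exact Real.sqrt_le_sqrt hT16
    have hsum := sum_sqrt_ge T
    have hN : (n : ℝ) * r / 432 ≤ 1 + (2 / 9) * ∑ h ∈ Finset.range (T + 1), √(h : ℝ) := by
      have : (n : ℝ) / 16 * (r / 4) ≤ T * √(T : ℝ) := by
        gcongr
      linarith
    have h1 := s_torus_le hn (T + 1) k (by omega) ((n : ℝ) * r / 432) (by positivity) hN
    refine le_trans h1 ?_
    have h2 : 4 * (n : ℝ) ≤ (k : ℝ) * ((n : ℝ) * r / 432 / (n : ℝ) ^ 2) := by
      have e : (n : ℝ) * r / 432 / (n : ℝ) ^ 2 = 1 / (432 * r) := by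
        rw [← hr2]; field_simp
      rw [e, mul_one_div, le_div_iff₀ (by positivity)]
      refine le_trans ?_ hk
      nlinarith
    have h3 : (n : ℝ) ^ 2 ≤ Real.exp (2 * n) := by
      have := Real.add_one_le_exp (n : ℝ)
      have h4 : (n : ℝ) ≤ Real.exp n := by linarith
      calc (n : ℝ) ^ 2 ≤ (Real.exp n) ^ 2 := pow_le_pow_left₀ (by linarith) h4 2
        _ = Real.exp (2 * n) := by rw [← Real.exp_nat_mul]; norm_num
    have h5 : (5 : ℝ) ^ (T + 1) ≤ Real.exp (n / 4) := by
      have h6 : (5 : ℝ) ≤ Real.exp 2 := by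
        have := Real.quadratic_le_exp_of_nonneg (show (0:ℝ) ≤ 2 by norm_num)
        norm_num at this
        linarith
      calc (5 : ℝ) ^ (T + 1) ≤ (Real.exp 2) ^ (T + 1) := pow_le_pow_left₀ (by norm_num) h6 _
        _ = Real.exp ((T + 1 : ℕ) * 2) := by rw [← Real.exp_nat_mul]
        _ ≤ Real.exp (n / 4) := by
          apply Real.exp_le_exp.mpr
          have : (T + 1) * 8 ≤ n := by omega
          have : ((T + 1 : ℕ) : ℝ) * 8 ≤ n := by exact_mod_cast this
          linarith
    calc (n : ℝ) ^ 2 * 5 ^ (T + 1) * Real.exp (-((k : ℝ) * ((n : ℝ) * r / 432 / (n : ℝ) ^ 2)))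
        ≤ Real.exp (2 * n) * Real.exp (n / 4) * Real.exp (-(4 * n)) := by
          gcongr
      _ = Real.exp (-(7 / 4 * n)) := by
          rw [← Real.exp_add, ← Real.exp_add]; congr 1; ring
      _ ≤ 1 / 2 := by
          rw [Real.exp_neg, inv_eq_one_div]
          apply one_div_le_one_div_of_le (by norm_num)
          have := Real.add_one_le_exp (7 / 4 * (n : ℝ))
          linarith

end Final

/-- The zombie number of the toroidal grid satisfies `z(T_n) ≤ C n^{3/2}`. -/
theorem result : ∃ C : ℝ, 0 < C ∧ ∀ (n : ℕ) [NeZero n], 3 ≤ n →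
    (∃ k : ℕ, s k (torus n) ≤ 1 / 2) ∧
      (zombieNumber (torus n) : ℝ) ≤ C * (n : ℝ) ^ (3 / 2 : ℝ) := by
  refine ⟨1729, by norm_num, ?_⟩
  intro n _ hn
  have hn3 : (3 : ℝ) ≤ n := by exact_mod_cast hn
  have hk := Nat.le_ceil (1728 * ((n : ℝ) * √(n : ℝ)))
  have h1 := main_bound hn _ hk
  refine ⟨⟨_, h1⟩, ?_⟩
  have h2 : zombieNumber (torus n) ≤ ⌈1728 * ((n : ℝ) * √(n : ℝ))⌉₊ := Nat.sInf_le h1
  have h3 : (zombieNumber (torus n) : ℝ) ≤ ⌈1728 * ((n : ℝ) * √(n : ℝ))⌉₊ := by exact_mod_cast h2
  have h4 := Nat.ceil_lt_add_one (show 0 ≤ 1728 * ((n : ℝ) * √(n : ℝ)) by positivity)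
  rw [rpow_eq]
  have h5 : 1 ≤ (n : ℝ) * √(n : ℝ) := by
    have : 1 ≤ √(n : ℝ) := by
      rw [show (1:ℝ) = √1 by simp]
      exact Real.sqrt_le_sqrt (by linarith)
    nlinarith
  linarith

end Pool.Agent.Results.MP_34e428_co.ZombieUpper
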